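import Pool.Agent.H998.HK.Spec3

/-!
# Representation of weak solutions of `-Δu + κ²u = F` (task YUK2 of helper998)
-/

set_option autoImplicit false

noncomputable section

namespace Pool.Agent.H578.HK

open MeasureTheory Filter Topology Set
open scoped ENNReal NNReal RealInnerProductSpace ContDiff
open Pool.Agent.H998.HK

/-! ### derivatives -/

lemma pd_congr {i : Fin 3} {f g : E3 → ℝ} {y : E3} (h : f =ᶠ[𝓝 y] g) :
    pd i f =ᶠ[𝓝 y] pd i g := by
  have := h.fderiv (𝕜 := ℝ)
  filter_upwards [this] with z hz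
  unfold pd
  rw [hz]

lemma pd_neg (i : Fin 3) (g : E3 → ℝ) : pd i (fun y => -g y) = fun y => -pd i g y := by
  funext y
  unfold pd
  rw [fderiv_fun_neg]
  rfl

lemma pd_comp_sub (i : Fin 3) (g : E3 → ℝ) (hg : Differentiable ℝ g) (x : E3) :
    pd i (fun y => g (x - y)) = fun y => -pd i g (x - y) := by
  funext y
  unfold pd
  have h1 : HasFDerivAt (fun y : E3 => x - y) (-(ContinuousLinearMap.id ℝ E3)) y := by
    simpa using (hasFDerivAt_id y).const_sub x
  have h2 : HasFDerivAt (fun y => g (x - y)) ((fderiv ℝ g (x - y)).comp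
      (-(ContinuousLinearMap.id ℝ E3))) y :=
    HasFDerivAt.comp y (hg (x - y)).hasFDerivAt h1
  rw [h2.fderiv]
  simp

lemma contDiff_pd {i : Fin 3} {g : E3 → ℝ} (hg : ContDiff ℝ ((⊤ : ℕ∞) : WithTop ℕ∞) g) :
    ContDiff ℝ ((⊤ : ℕ∞) : WithTop ℕ∞) (pd i g) := by
  unfold pd
  exact (hg.fderiv_right (m := ((⊤ : ℕ∞) : WithTop ℕ∞)) le_rfl).clm_apply contDiff_const

lemma pd_pd_comp_sub (i : Fin 3) (g : E3 → ℝ) (hg : ContDiff ℝ ((⊤ : ℕ∞) : WithTop ℕ∞) g)
    (x : E3) : pd i (pd i (fun y => g (x - y))) = fun y => pd i (pd i g) (x - y) := by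
  have hd : Differentiable ℝ g := hg.differentiable (by simp)
  have hd2 : Differentiable ℝ (pd i g) := (contDiff_pd hg).differentiable (by simp)
  rw [pd_comp_sub i g hd, pd_neg, pd_comp_sub i _ hd2]
  funext y
  simp

lemma test_pd {i : Fin 3} {φ : E3 → ℝ} (hφ : Test φ) : Test (pd i φ) := by
  refine ⟨contDiff_pd hφ.1, ?_⟩
  unfold pd
  have := hφ.2.fderiv (𝕜 := ℝ)
  exact this.comp_left (g := fun L : E3 →L[ℝ] ℝ => L (EuclideanSpace.single i (1 : ℝ))) (by simp)

/-! ### the kernel -/

lemma yuk_eq (κ : ℝ) (x : E3) : yuk κ x = Real.exp (-(κ * ‖x‖)) / (4 * Real.pi * ‖x‖) := by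
  unfold yuk yukR
  rw [Real.sqrt_sq (norm_nonneg x)]

lemma yukR_nonneg (κ σ : ℝ) : 0 ≤ yukR κ σ := by
  unfold yukR
  positivity

lemma yuk_nonneg (κ : ℝ) (x : E3) : 0 ≤ yuk κ x := yukR_nonneg _ _

lemma integrable_yuk {κ : ℝ} (hκ : 0 < κ) : Integrable (yuk κ) := by
  have h1 : yuk κ = fun x : E3 =>
      (fun r : ℝ => Real.exp (-(κ * r)) / (4 * Real.pi * r)) ‖x‖ := by
    funext x
    exact yuk_eq κ x
  rw [h1]
  refine (integrable_fun_norm_addHaar (volume : Measure E3)
    (f := fun r : ℝ => Real.exp (-(κ * r)) / (4 * Real.pi * r))).2 ?_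
  have hdim : Module.finrank ℝ E3 - 1 = 2 := by simp
  rw [hdim]
  have h2 : IntegrableOn (fun r : ℝ => (1 / (4 * Real.pi)) * (r ^ (1 : ℝ) *
      Real.exp (-κ * r ^ (1 : ℝ)))) (Ioi 0) :=
    (integrableOn_rpow_mul_exp_neg_mul_rpow (s := 1) (p := 1) (by norm_num) one_pos hκ).const_mul _
  refine h2.congr_fun ?_ measurableSet_Ioi
  intro r hr
  have hr : 0 < r := hr
  simp only [Real.rpow_one, smul_eq_mul]
  rw [neg_mul]
  field_simp

lemma yukR_anti {κ : ℝ} (hκ : 0 < κ) {σ τ : ℝ} (hσ : 0 < σ) (h : σ ≤ τ) :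
    yukR κ τ ≤ yukR κ σ := by
  unfold yukR
  have h1 : √σ ≤ √τ := Real.sqrt_le_sqrt h
  have h0 : 0 < √σ := Real.sqrt_pos.2 hσ
  have hpi := Real.pi_pos
  refine div_le_div₀ (Real.exp_pos _).le ?_ (by positivity) ?_
  · apply Real.exp_le_exp.2
    nlinarith
  · exact mul_le_mul_of_nonneg_left h1 (by positivity)

lemma yukE_le_yuk {κ : ℝ} (hκ : 0 < κ) (ε : ℝ) {x : E3} (hx : x ≠ 0) :
    yukE κ ε x ≤ yuk κ x := by
  unfold yukE yuk
  have : 0 < ‖x‖ := norm_pos_iff.2 hx
  exact yukR_anti hκ (by positivity) (by nlinarith [sq_nonneg ε])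

lemma yukE_nonneg (κ ε : ℝ) (x : E3) : 0 ≤ yukE κ ε x := yukR_nonneg _ _

lemma tendsto_yukE {κ : ℝ} {x : E3} (hx : x ≠ 0) :
    Tendsto (fun ε : ℝ => yukE κ ε x) (𝓝[>] 0) (𝓝 (yuk κ x)) := by
  have h0 : 0 < ‖x‖ := norm_pos_iff.2 hx
  have hc : ContinuousAt (fun ε : ℝ => yukE κ ε x) 0 := by
    unfold yukE yukR
    refine ContinuousAt.div (by fun_prop) (by fun_prop) ?_
    have : 0 < √(‖x‖ ^ 2 + 0 ^ 2) := Real.sqrt_pos.2 (by positivity)
    have hpi := Real.pi_pos
    positivity
  have h1 : Tendsto (fun ε : ℝ => yukE κ ε x) (𝓝 0) (𝓝 (yukE κ 0 x)) := hc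
  have h2 : yukE κ 0 x = yuk κ x := by
    unfold yukE yuk
    simp
  rw [h2] at h1
  exact h1.mono_left nhdsWithin_le_nhds

/-! ### the identity for the regularised kernel -/

/-- bounded support and `L²` give `L¹` -/
lemma integrable_of_memLp {r0 : ℝ} {u : E3 → ℝ} (hu : MemLp u 2)
    (h0 : ∀ x, r0 < ‖x‖ → u x = 0) : Integrable u := by
  have h1 : MemLp u 2 (volume.restrict (Metric.closedBall (0 : E3) r0)) := hu.restrict _
  have : IsFiniteMeasure (volume.restrict (Metric.closedBall (0 : E3) r0)) :=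
    ⟨by
      rw [Measure.restrict_apply_univ]
      exact (isCompact_closedBall (0 : E3) r0).measure_lt_top⟩
  have h2 : IntegrableOn u (Metric.closedBall (0 : E3) r0) := h1.integrable (by norm_num)
  refine (integrableOn_iff_integrable_of_support_subset ?_).1 h2
  intro x hx
  rw [Function.mem_support] at hx
  by_contra h
  exact hx (h0 x (by simpa using h))

lemma test_identity {κ : ℝ} {u F : E3 → ℝ} {D : Fin 3 → E3 → ℝ}
    (hu : Integrable u) (hD : ∀ i, Integrable (D i)) (hw : WeakGrad u D) (he : WeakEq κ u D F)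
    {φ : E3 → ℝ} (hφ : Test φ) :
    ∫ y, u y * (κ ^ 2 * φ y - ∑ i, pd i (pd i φ) y) = ∫ y, F y * φ y := by
  have hcu : ∀ {g ψ : E3 → ℝ}, Integrable g → Test ψ → Integrable (fun x => ψ x * g x) := by
    intro g ψ hg hψ
    have := hg.locallyIntegrable.integrable_smul_left_of_hasCompactSupport
      hψ.1.continuous hψ.2
    simpa only [smul_eq_mul] using this
  rw [← he φ hφ]
  have h1 : ∀ i, ∫ x, D i x * pd i φ x = -∫ x, pd i (pd i φ) x * u x := by
    intro i
    have := hw i (pd i φ) (test_pd hφ)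
    simp only [smul_eq_mul] at this
    rw [this, neg_neg]
    refine integral_congr_ae (Eventually.of_forall fun x => ?_)
    simp only
    ring
  have i1 : ∀ i, Integrable (fun x => D i x * pd i φ x) := by
    intro i
    refine (hcu (hD i) (test_pd (i := i) hφ)).congr (Eventually.of_forall fun x => ?_)
    simp only
    ring
  have i2 : Integrable (fun x => κ ^ 2 * (u x * φ x)) := by
    refine ((hcu hu hφ).const_mul (κ ^ 2)).congr (Eventually.of_forall fun x => ?_)
    simp only
    ring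
  have i3 : ∀ i, Integrable (fun x => pd i (pd i φ) x * u x) := fun i =>
    hcu hu (test_pd (test_pd hφ))
  rw [integral_add (integrable_finsetSum _ fun i _ => i1 i) i2,
    integral_finsetSum _ (fun i _ => i1 i)]
  have e : ∀ y, u y * (κ ^ 2 * φ y - ∑ i, pd i (pd i φ) y) =
      κ ^ 2 * (u y * φ y) - ∑ i, pd i (pd i φ) y * u y := by
    intro y
    rw [mul_sub, Finset.mul_sum]
    congr 1
    · ring
    · exact Finset.sum_congr rfl fun i _ => mul_comm _ _
  simp_rw [e]
  rw [integral_sub i2 (integrable_finsetSum _ fun i _ => i3 i),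
    integral_finsetSum _ (fun i _ => i3 i)]
  simp_rw [h1]
  rw [Finset.sum_neg_distrib]
  ring

lemma reg_identity {κ ε r0 : ℝ} {u F : E3 → ℝ} {D : Fin 3 → E3 → ℝ}
    (hr0 : 0 < r0)
    (hu : Integrable u) (hD : ∀ i, Integrable (D i)) (hw : WeakGrad u D) (he : WeakEq κ u D F)
    (hu0 : ∀ x, r0 < ‖x‖ → u x = 0) (hF0 : ∀ x, r0 < ‖x‖ → F x = 0)
    (hsm : ContDiff ℝ ((⊤ : ℕ∞) : WithTop ℕ∞) (yukE κ ε))
    (hk : ∀ x, κ ^ 2 * yukE κ ε x - ∑ i, pd i (pd i (yukE κ ε)) x = kap κ ε x) (x : E3) :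
    ∫ y, u y * kap κ ε (x - y) = ∫ y, F y * yukE κ ε (x - y) := by
  let c : ContDiffBump (0 : E3) := ⟨r0 + 1, r0 + 2, by linarith, by linarith⟩
  have hc1 : ∀ y : E3, ‖y‖ ≤ r0 + 1 → c y = 1 := fun y hy =>
    c.one_of_mem_closedBall (by simpa using hy)
  set φ : E3 → ℝ := fun y => yukE κ ε (x - y) * c y with hφ
  have hsm' : ContDiff ℝ ((⊤ : ℕ∞) : WithTop ℕ∞) (fun y => yukE κ ε (x - y)) :=
    hsm.comp (contDiff_const.sub contDiff_id)
  have hT : Test φ := ⟨hsm'.mul c.contDiff, c.hasCompactSupport.mul_left⟩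
  have hid := test_identity hu hD hw he hT
  have hloc : ∀ y : E3, ‖y‖ ≤ r0 → φ =ᶠ[𝓝 y] (fun y => yukE κ ε (x - y)) := by
    intro y hy
    have : ∀ᶠ z : E3 in 𝓝 y, ‖z‖ < r0 + 1 := by
      have := (continuous_norm (E := E3)).continuousAt (x := y)
      exact this.eventually (gt_mem_nhds (by linarith))
    filter_upwards [this] with z hz
    simp [hφ, hc1 z hz.le]
  have hL : ∫ y, u y * (κ ^ 2 * φ y - ∑ i, pd i (pd i φ) y) = ∫ y, u y * kap κ ε (x - y) := by
    refine integral_congr_ae (Eventually.of_forall fun y => ?_)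
    simp only
    by_cases hy : r0 < ‖y‖
    · rw [hu0 y hy]; simp
    · push Not at hy
      have h1 := hloc y hy
      have h2 : ∀ i, pd i (pd i φ) y = pd i (pd i (yukE κ ε)) (x - y) := by
        intro i
        have h3 := (pd_congr (i := i) (pd_congr (i := i) h1)).self_of_nhds
        rw [h3, pd_pd_comp_sub i _ hsm]
      simp_rw [h2]
      rw [h1.self_of_nhds, hk]
  have hR : ∫ y, F y * φ y = ∫ y, F y * yukE κ ε (x - y) := by
    refine integral_congr_ae (Eventually.of_forall fun y => ?_)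
    simp only
    by_cases hy : r0 < ‖y‖
    · rw [hF0 y hy]; simp
    · push Not at hy
      rw [(hloc y hy).self_of_nhds]
  rw [← hL, ← hR]
  exact hid

/-! ### the limit -/

theorem t_YUK2 : S_YUK2 := by
  intro hKAP κ r0 u F D hκ hr0 hu2 hD2 hF hw he hu0 hD0 hF0
  obtain ⟨hK1, hK2⟩ := hKAP κ hκ
  have hu : Integrable u := integrable_of_memLp hu2 hu0
  have hD : ∀ i, Integrable (D i) := fun i => integrable_of_memLp (hD2 i) (hD0 i)
  have hyuk := integrable_yuk hκ
  -- the solution given by the kernel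
  set Gf : E3 → ℝ := fun x => ∫ y, yuk κ (x - y) * F y with hGf
  have hprod : Integrable (fun p : E3 × E3 => F p.2 * yuk κ (p.1 - p.2)) :=
    hF.convolution_integrand (ContinuousLinearMap.mul ℝ ℝ) hyuk
  have hG : Integrable Gf := by
    have h1 := hprod.integral_prod_left
    refine h1.congr (Eventually.of_forall fun x => ?_)
    simp only [hGf]
    refine integral_congr_ae (Eventually.of_forall fun y => ?_)
    simp only
    ring
  refine ae_eq_of_integral_contDiff_smul_eq hu.locallyIntegrable hG.locallyIntegrable ?_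
  intro ψ hψs hψc
  simp only [smul_eq_mul]
  have hψcont : Continuous ψ := hψs.continuous
  obtain ⟨B, hB⟩ := hψcont.bounded_above_of_compact_support hψc
  have hB0 : 0 ≤ B := (norm_nonneg _).trans (hB 0)
  -- identity for every `ε`
  have hId : ∀ ε : ℝ, 0 < ε → ∫ y, u y * ∫ x, kap κ ε (x - y) * ψ x =
      ∫ p : E3 × E3, ψ p.1 * (F p.2 * yukE κ ε (p.1 - p.2)) := by
    intro ε hε
    obtain ⟨hsm, hk0, hki, hk1, hkeq⟩ := hK1 ε hε
    have hreg := reg_identity (ε := ε) hr0 hu hD hw he hu0 hF0 hsm hkeq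
    have hyE : Integrable (yukE κ ε) := by
      refine hyuk.mono' hsm.continuous.aestronglyMeasurable ?_
      have : ∀ᵐ x : E3, x ≠ 0 := by
        simp [ae_iff, measure_singleton]
      filter_upwards [this] with x hx
      rw [Real.norm_of_nonneg (yukE_nonneg _ _ _)]
      exact yukE_le_yuk hκ ε hx
    have p1 : Integrable (fun p : E3 × E3 => u p.2 * kap κ ε (p.1 - p.2)) :=
      hu.convolution_integrand (ContinuousLinearMap.mul ℝ ℝ) hki
    have p2 : Integrable (fun p : E3 × E3 => F p.2 * yukE κ ε (p.1 - p.2)) :=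
      hF.convolution_integrand (ContinuousLinearMap.mul ℝ ℝ) hyE
    have p1' : Integrable (fun p : E3 × E3 => ψ p.1 * (u p.2 * kap κ ε (p.1 - p.2))) :=
      p1.bdd_mul (c := B) (hψcont.comp continuous_fst).aestronglyMeasurable
        (Eventually.of_forall fun p => hB p.1)
    have p2' : Integrable (fun p : E3 × E3 => ψ p.1 * (F p.2 * yukE κ ε (p.1 - p.2))) :=
      p2.bdd_mul (c := B) (hψcont.comp continuous_fst).aestronglyMeasurable
        (Eventually.of_forall fun p => hB p.1)
    have e1 : ∫ p : E3 × E3, ψ p.1 * (u p.2 * kap κ ε (p.1 - p.2)) =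
        ∫ y, u y * ∫ x, kap κ ε (x - y) * ψ x := by
      rw [show (volume : Measure (E3 × E3)) = volume.prod volume from rfl,
        integral_prod_symm _ p1']
      refine integral_congr_ae (Eventually.of_forall fun y => ?_)
      simp only
      rw [← integral_const_mul]
      refine integral_congr_ae (Eventually.of_forall fun x => ?_)
      simp only
      ring
    rw [← e1]
    rw [show (volume : Measure (E3 × E3)) = volume.prod volume from rfl,
      integral_prod _ p1', integral_prod _ p2']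
    refine integral_congr_ae (Eventually.of_forall fun x => ?_)
    simp only
    rw [integral_const_mul, integral_const_mul, hreg x]
  -- left limit
  have hLim1 : Tendsto (fun ε : ℝ => ∫ y, u y * ∫ x, kap κ ε (x - y) * ψ x) (𝓝[>] 0)
      (𝓝 (∫ y, u y * ψ y)) := by
    refine tendsto_integral_filter_of_dominated_convergence (fun y => ‖u y‖ * B) ?_ ?_ ?_ ?_
    · filter_upwards [self_mem_nhdsWithin] with ε hε
      obtain ⟨hsm, hk0, hki, hk1, hkeq⟩ := hK1 ε hε
      refine hu.aestronglyMeasurable.mul ?_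
      have hkc : Continuous (kap κ ε) := by
        have : kap κ ε = fun x => κ ^ 2 * yukE κ ε x - ∑ i, pd i (pd i (yukE κ ε)) x :=
          funext fun x => (hkeq x).symm
        rw [this]
        refine (continuous_const.mul hsm.continuous).sub ?_
        exact continuous_finsetSum _ fun i _ => (contDiff_pd (contDiff_pd hsm)).continuous
      have hcc : Continuous (fun p : E3 × E3 => kap κ ε (p.2 - p.1) * ψ p.2) :=
        (hkc.comp (continuous_snd.sub continuous_fst)).mul (hψcont.comp continuous_snd)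
      exact (hcc.aestronglyMeasurable (μ := (volume : Measure E3).prod
        (volume : Measure E3))).integral_prod_right'
    · filter_upwards [self_mem_nhdsWithin] with ε hε
      obtain ⟨hsm, hk0, hki, hk1, hkeq⟩ := hK1 ε hε
      refine Eventually.of_forall fun y => ?_
      rw [norm_mul]
      refine mul_le_mul_of_nonneg_left ?_ (norm_nonneg _)
      have hki' : Integrable (fun x => kap κ ε (x - y)) := hki.comp_sub_right y
      calc ‖∫ x, kap κ ε (x - y) * ψ x‖ ≤ ∫ x, kap κ ε (x - y) * B := by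
            refine norm_integral_le_of_norm_le (hki'.mul_const B)
              (Eventually.of_forall fun x => ?_)
            rw [norm_mul, Real.norm_of_nonneg (hk0 _)]
            exact mul_le_mul_of_nonneg_left (hB x) (hk0 _)
        _ = (∫ x, kap κ ε x) * B := by
            rw [integral_mul_const, integral_sub_right_eq_self (kap κ ε) y]
        _ ≤ 1 * B := mul_le_mul_of_nonneg_right hk1 hB0
        _ = B := one_mul B
    · exact hu.norm.mul_const B
    · refine Eventually.of_forall fun y => ?_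
      exact (hK2 ψ hψcont hψc y).const_mul (u y)
  -- right limit
  have hLim2 : Tendsto (fun ε : ℝ => ∫ p : E3 × E3, ψ p.1 * (F p.2 * yukE κ ε (p.1 - p.2)))
      (𝓝[>] 0) (𝓝 (∫ p : E3 × E3, ψ p.1 * (F p.2 * yuk κ (p.1 - p.2)))) := by
    have hne : ∀ᵐ p : E3 × E3, p.1 - p.2 ≠ 0 := by
      have h0 : ∀ᵐ x : E3, x ≠ 0 := by
        simp [ae_iff, measure_singleton]
      exact (quasiMeasurePreserving_sub_of_right_invariant (volume : Measure E3)
        (volume : Measure E3)).ae h0
    refine tendsto_integral_filter_of_dominated_convergence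
      (fun p => B * ‖F p.2 * yuk κ (p.1 - p.2)‖) ?_ ?_ ?_ ?_
    · filter_upwards [self_mem_nhdsWithin] with ε hε
      obtain ⟨hsm, hk0, hki, hk1, hkeq⟩ := hK1 ε hε
      refine (hψcont.comp continuous_fst).aestronglyMeasurable.mul ?_
      exact hF.aestronglyMeasurable.comp_snd.mul
        (hsm.continuous.comp (continuous_fst.sub continuous_snd)).aestronglyMeasurable
    · refine Eventually.of_forall fun ε => ?_
      filter_upwards [hne] with p hp
      rw [norm_mul]
      refine mul_le_mul (hB _) ?_ (norm_nonneg _) hB0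
      rw [norm_mul, norm_mul]
      refine mul_le_mul_of_nonneg_left ?_ (norm_nonneg _)
      rw [Real.norm_of_nonneg (yukE_nonneg _ _ _), Real.norm_of_nonneg (yuk_nonneg _ _)]
      exact yukE_le_yuk hκ ε hp
    · exact hprod.norm.const_mul B
    · filter_upwards [hne] with p hp
      exact ((tendsto_yukE hp).const_mul _).const_mul _
  have hEq : (fun ε : ℝ => ∫ y, u y * ∫ x, kap κ ε (x - y) * ψ x) =ᶠ[𝓝[>] 0]
      (fun ε : ℝ => ∫ p : E3 × E3, ψ p.1 * (F p.2 * yukE κ ε (p.1 - p.2))) := by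
    filter_upwards [self_mem_nhdsWithin] with ε hε
    exact hId ε hε
  have hfin := tendsto_nhds_unique (hLim1.congr' hEq) hLim2
  have e2 : ∫ x, ψ x * u x = ∫ y, u y * ψ y :=
    integral_congr_ae (Eventually.of_forall fun x => mul_comm _ _)
  rw [e2, hfin]
  have p3 : Integrable (fun p : E3 × E3 => ψ p.1 * (F p.2 * yuk κ (p.1 - p.2))) :=
    hprod.bdd_mul (c := B) (hψcont.comp continuous_fst).aestronglyMeasurable
      (Eventually.of_forall fun p => hB p.1)
  rw [show (volume : Measure (E3 × E3)) = volume.prod volume from rfl, integral_prod _ p3]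
  refine integral_congr_ae (Eventually.of_forall fun x => ?_)
  simp only [hGf]
  rw [integral_const_mul]
  congr 1
  refine integral_congr_ae (Eventually.of_forall fun y => ?_)
  simp only
  ring

end Pool.Agent.H578.HK
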